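import Pool.Agent.Lib.Pf8fe2f.Cover

/-!
# Reflection to Borel `E1`-invariant sets and enumeration of the classes
-/

open Set MeasureTheory Topology

namespace Pool.Agent.Pf8fe2f

/-- real sequences -/
abbrev Z : Type := ℕ → ℝ

/-- preimages of analytic sets under Borel maps are analytic -/
theorem an_preimage {α β : Type*} [TopologicalSpace α] [PolishSpace α] [MeasurableSpace α]
    [BorelSpace α] [TopologicalSpace β] [PolishSpace β] [MeasurableSpace β] [BorelSpace β]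
    {A : Set β} (hA : AnalyticSet A) {g : α → β} (hg : Measurable g) : AnalyticSet (g ⁻¹' A) := by
  have h1 : MeasurableSet {p : α × β | g p.1 = p.2} :=
    measurableSet_eq_fun (hg.comp measurable_fst) measurable_snd
  have h2 := an_proj (an_inter h1.analyticSet (hA.preimage (continuous_snd (X := α))))
  convert h2 using 1
  ext x
  constructor
  · intro hx
    exact ⟨g x, rfl, hx⟩
  · rintro ⟨y, hy, hyA⟩
    have hy' : g x = y := hy
    show g x ∈ A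
    rw [hy']
    exact hyA

/-- `E1`-invariance -/
def Inv (A : Set Z) : Prop := ∀ z z', z ∈ A → E1 z z' → z' ∈ A

/-- the `E1`-saturation -/
def sat (A : Set Z) : Set Z := {z | ∃ a, E1 z a ∧ a ∈ A}

theorem subset_sat (A : Set Z) : A ⊆ sat A := fun z hz => ⟨z, E1.refl z, hz⟩

theorem inv_sat (A : Set Z) : Inv (sat A) := by
  rintro z z' ⟨a, ha, haA⟩ h
  exact ⟨a, h.symm.trans ha, haA⟩

theorem an_sat {A : Set Z} (hA : AnalyticSet A) : AnalyticSet (sat A) := by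
  have h1 : MeasurableSet {p : Z × Z | E1 p.1 p.2} := measurableSet_E1 measurable_fst measurable_snd
  have h2 := an_proj (an_inter h1.analyticSet (hA.preimage (continuous_snd (X := Z))))
  exact h2

theorem polish_prod {α β : Type*} [TopologicalSpace α] [TopologicalSpace β] [PolishSpace α]
    [PolishSpace β] : PolishSpace (α × β) := inferInstance

/-- saturation of a set of triples -/
def sat3 (C : Set (Z × Z × Z)) : Set (Z × Z × Z) :=
  {p | ∃ q : Z × Z × Z, (E1 p.1 q.1 ∧ E1 p.2.1 q.2.1 ∧ E1 p.2.2 q.2.2) ∧ q ∈ C}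

theorem an_sat3 {C : Set (Z × Z × Z)} (hC : AnalyticSet C) : AnalyticSet (sat3 C) := by
  have : PolishSpace ((Z × Z × Z) × (Z × Z × Z)) := polish_prod
  have h1 : MeasurableSet {r : (Z × Z × Z) × (Z × Z × Z) | E1 r.1.1 r.2.1 ∧
      E1 r.1.2.1 r.2.2.1 ∧ E1 r.1.2.2 r.2.2.2} :=
    (measurableSet_E1 (by fun_prop) (by fun_prop)).inter
      ((measurableSet_E1 (by fun_prop) (by fun_prop)).inter
        (measurableSet_E1 (by fun_prop) (by fun_prop)))
  have h2 := an_proj (an_inter h1.analyticSet (hC.preimage (continuous_snd (X := Z × Z × Z))))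
  exact h2

/-- Invariant reflection for triples. -/
theorem inv_sep3 {A : Set Z} (hA : AnalyticSet A) (hi : Inv A) {C : Set (Z × Z × Z)}
    (hC : AnalyticSet C) (h : ∀ x ∈ A, ∀ y ∈ A, ∀ z ∈ A, (x, y, z) ∉ C) :
    ∃ B, MeasurableSet B ∧ A ⊆ B ∧ Inv B ∧ ∀ x ∈ B, ∀ y ∈ B, ∀ z ∈ B, (x, y, z) ∉ C := by
  have key : ∀ B : Set Z, AnalyticSet B → (∀ x ∈ B, ∀ y ∈ B, ∀ z ∈ B, (x, y, z) ∉ sat3 C) →
      ∃ B', MeasurableSet B' ∧ sat B ⊆ B' ∧
        ∀ x ∈ B', ∀ y ∈ B', ∀ z ∈ B', (x, y, z) ∉ sat3 C := by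
    intro B hB hBC
    refine sep3 (an_sat hB) (an_sat3 hC) ?_
    rintro x ⟨a, ha, haB⟩ y ⟨b, hb, hbB⟩ z ⟨c, hc, hcB⟩ ⟨q, ⟨h1, h2, h3⟩, hq⟩
    exact hBC a haB b hbB c hcB ⟨q, ⟨ha.symm.trans h1, hb.symm.trans h2, hc.symm.trans h3⟩, hq⟩
  have hA0 : ∀ x ∈ A, ∀ y ∈ A, ∀ z ∈ A, (x, y, z) ∉ sat3 C := by
    rintro x hx y hy z hz ⟨q, ⟨h1, h2, h3⟩, hq⟩
    exact h q.1 (hi _ _ hx h1) q.2.1 (hi _ _ hy h2) q.2.2 (hi _ _ hz h3) hq
  obtain ⟨B0, hB0, hAB0, hB0C⟩ := key A hA hA0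
  choose! nx hnx1 hnx2 hnx3 using key
  let S : ℕ → Set Z := fun n => Nat.rec B0 (fun _ B => nx B) n
  have hS : ∀ n, MeasurableSet (S n) ∧ ∀ x ∈ S n, ∀ y ∈ S n, ∀ z ∈ S n, (x, y, z) ∉ sat3 C := by
    intro n
    induction n with
    | zero => exact ⟨hB0, hB0C⟩
    | succ n ih => exact ⟨hnx1 _ ih.1.analyticSet ih.2, hnx3 _ ih.1.analyticSet ih.2⟩
  have hsub : ∀ n, sat (S n) ⊆ S (n + 1) := fun n => hnx2 _ (hS n).1.analyticSet (hS n).2
  have hmono : Monotone S := monotone_nat_of_le_succ fun n => (subset_sat _).trans (hsub n)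
  refine ⟨⋃ n, S n, MeasurableSet.iUnion fun n => (hS n).1, ?_, ?_, ?_⟩
  · exact ((subset_sat A).trans hAB0).trans (Set.subset_iUnion S 0)
  · intro z z' hz hzz
    obtain ⟨n, hn⟩ := Set.mem_iUnion.1 hz
    exact Set.mem_iUnion.2 ⟨n + 1, hsub n ⟨z, hzz.symm, hn⟩⟩
  · intro x hx y hy z hz hC'
    obtain ⟨i, hi⟩ := Set.mem_iUnion.1 hx
    obtain ⟨j, hj⟩ := Set.mem_iUnion.1 hy
    obtain ⟨k, hk⟩ := Set.mem_iUnion.1 hz
    refine (hS (max i (max j k))).2 x (hmono (by omega) hi) y (hmono (by omega) hj) z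
      (hmono (by omega) hk) ⟨(x, y, z), ⟨E1.refl _, E1.refl _, E1.refl _⟩, hC'⟩

/-- invariant separation -/
theorem inv_sep1 {A : Set Z} (hA : AnalyticSet A) (hi : Inv A) {C : Set Z}
    (hC : AnalyticSet C) (h : ∀ x ∈ A, x ∉ C) :
    ∃ B, MeasurableSet B ∧ A ⊆ B ∧ Inv B ∧ ∀ x ∈ B, x ∉ C := by
  obtain ⟨B, h1, h2, h3, h4⟩ := inv_sep3 hA hi (hC.preimage (continuous_fst (Y := Z × Z)))
    (fun x hx _ _ _ _ => h x hx)
  exact ⟨B, h1, h2, h3, fun x hx => h4 x hx x hx x hx⟩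

/-- A Borel set with at most one point in every section is the graph of a partial Borel map with
Borel domain. -/
theorem exists_fun {W : Set (Z × Z)} (hW : MeasurableSet W)
    (hi : ∀ z y y', (z, y) ∈ W → (z, y') ∈ W → y = y') :
    ∃ (D : Set Z) (g : Z → Z), MeasurableSet D ∧ Measurable g ∧ (∀ z ∈ D, (z, g z) ∈ W) ∧
      ∀ z y, (z, y) ∈ W → z ∈ D ∧ g z = y := by
  have hinj : Set.InjOn (Prod.fst : Z × Z → Z) W := by
    rintro ⟨z, y⟩ hz ⟨z', y'⟩ hz' h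
    dsimp only at h
    subst h
    rw [hi z y y' hz hz']
  have hD : MeasurableSet (Prod.fst '' W) := hW.image_of_measurable_injOn measurable_fst hinj
  have : StandardBorelSpace W := hW.standardBorel
  have hme : MeasurableEmbedding (fun w : W => w.1.1) :=
    Measurable.measurableEmbedding (measurable_fst.comp measurable_subtype_coe)
      (fun a b h => Subtype.ext (hinj a.2 b.2 h))
  obtain ⟨g, hg, hgc⟩ := hme.exists_measurable_extend
    (g := fun w : W => w.1.2) (measurable_snd.comp measurable_subtype_coe)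
    (fun _ => inferInstance)
  have key : ∀ z y, (z, y) ∈ W → g z = y := by
    intro z y h
    exact congrFun hgc ⟨(z, y), h⟩
  refine ⟨Prod.fst '' W, g, hD, hg, ?_, fun z y h => ⟨⟨_, h, rfl⟩, key z y h⟩⟩
  rintro _ ⟨⟨z, y⟩, hz, rfl⟩
  rw [key z y hz]
  exact hz

/-- replace the first `k` terms by zero -/
noncomputable def zr (k : ℕ) (y : Z) : Z := fun m => if m < k then 0 else y m

theorem EN_zr (k : ℕ) (y : Z) : EN k y (zr k y) := by
  intro m hm
  rw [zr, if_neg (by omega)]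

theorem zr_eq {k : ℕ} {y y' : Z} : zr k y = zr k y' ↔ EN k y y' := by
  constructor
  · intro h m hm
    have := congrFun h m
    rwa [zr, zr, if_neg (by omega), if_neg (by omega)] at this
  · intro h
    funext m
    unfold zr
    split_ifs with hm
    · rfl
    · exact h m (by omega)

theorem measurable_zr (k : ℕ) : Measurable (zr k) := by
  rw [measurable_pi_iff]
  intro m
  unfold zr
  split_ifs
  · exact measurable_const
  · exact measurable_pi_apply m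

/-- **Lusin-Novikov enumeration for quotients by `E1`.** -/
theorem exists_enum {A : Set Z} (hA : MeasurableSet A) (hAi : Inv A) {R : Set (Z × Z)}
    (hR : MeasurableSet R) (hRs : Small R)
    (hE : ∀ x ∈ A, ∀ y ∈ A, E1 x y → (x, y) ∈ R)
    (ht : ∀ x ∈ A, ∀ y ∈ A, ∀ z ∈ A, (x, y) ∈ R → (y, z) ∈ R → (x, z) ∈ R) :
    ∃ (D : ℕ → Set Z) (g : ℕ → Z → Z), (∀ j, MeasurableSet (D j)) ∧ (∀ j, Measurable (g j)) ∧
      (∀ j, ∀ z ∈ D j, z ∈ A ∧ g j z ∈ A ∧ (z, g j z) ∈ R) ∧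
      ∀ z ∈ A, ∀ y ∈ A, (z, y) ∈ R → ∃ j, z ∈ D j ∧ E1 (g j z) y := by
  obtain ⟨S, k, hSm, hSk, hRS⟩ := hRs
  -- the part of `R` over `A`
  let P : Set (Z × Z) := {p | p.1 ∈ A ∧ p.2 ∈ A ∧ p ∈ R}
  have hP : MeasurableSet P := (measurable_fst hA).inter ((measurable_snd hA).inter hR)
  have key : ∀ j, ∃ (D : Set Z) (g : Z → Z), MeasurableSet D ∧ Measurable g ∧
      (∀ z ∈ D, (z, g z) ∈ P) ∧ ∀ z y, (z, y) ∈ P → (z, y) ∈ S j → z ∈ D ∧ E1 (g z) y := by
    intro j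
    let G : Set (Z × Z) := {p | ∃ y, (p, y) ∈ {q : (Z × Z) × Z | (q.1.1, q.2) ∈ P ∩ S j ∧
      EN (k j) q.2 q.1.2}}
    have hG : AnalyticSet G := by
      refine an_proj (MeasurableSet.analyticSet ?_)
      exact ((by fun_prop : Measurable fun q : (Z × Z) × Z => (q.1.1, q.2))
        (hP.inter (hSm j))).inter (measurableSet_EN (k j) (by fun_prop) (by fun_prop))
    have hGs : SmallK (k j) G := by
      rintro v z z' ⟨y, ⟨-, hy⟩, h1⟩ ⟨y', ⟨-, hy'⟩, h2⟩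
      exact (h1.symm.trans (hSk j v y y' hy hy')).trans h2
    have hGP : G ⊆ P := by
      rintro ⟨v, z⟩ ⟨y, ⟨hy, -⟩, h1⟩
      have hv : v ∈ A := hy.1
      have hyA : y ∈ A := hy.2.1
      have h1' : E1 y z := ⟨_, h1⟩
      have hz : z ∈ A := hAi y z hyA h1'
      exact ⟨hv, hz, ht v hv y hyA z hz hy.2.2 (hE y hyA z hz h1')⟩
    obtain ⟨B, hB, hGB, hBs⟩ := exists_borel_small hG hGs
    let W : Set (Z × Z) := {p | (p ∈ B ∧ p ∈ P) ∧ zr (k j) p.2 = p.2}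
    have hW : MeasurableSet W := by
      refine (hB.inter hP).inter ?_
      exact measurableSet_eq_fun ((measurable_zr _).comp measurable_snd) measurable_snd
    obtain ⟨D, g, hD, hg, h1, h2⟩ := exists_fun hW (by
      rintro z y y' ⟨⟨hy, -⟩, e1⟩ ⟨⟨hy', -⟩, e2⟩
      dsimp only at e1 e2
      rw [← e1, ← e2, zr_eq]
      exact hBs z y y' hy hy')
    refine ⟨D, g, hD, hg, fun z hz => (h1 z hz).1.2, fun z y hzy hS => ?_⟩
    have hzr : (z, zr (k j) y) ∈ G := ⟨y, ⟨hzy, hS⟩, EN_zr _ _⟩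
    obtain ⟨h3, h4⟩ := h2 z (zr (k j) y) ⟨⟨hGB hzr, hGP hzr⟩, by
      show zr (k j) (zr (k j) y) = zr (k j) y
      rw [zr_eq]
      exact (EN_zr _ _).symm⟩
    refine ⟨h3, k j, ?_⟩
    rw [h4]
    exact (EN_zr _ _).symm
  choose D g hD hg h1 h2 using key
  refine ⟨D, g, hD, hg, h1, fun z hz y hy hzy => ?_⟩
  obtain ⟨j, hj⟩ := Set.mem_iUnion.1 (hRS hzy)
  exact ⟨j, h2 j z y ⟨hz, hy, hzy⟩ hj⟩

end Pool.Agent.Pf8fe2f
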