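import Pool.Agent.Lib.Pf8fe2f.Sep

/-!
# The covering lemma

`EN n` is equality of real sequences from the coordinate `n` on and `E1 = ⋃ n, EN n` is eventual
equality.  If `P ⊆ V × (ℕ → ℝ)` is analytic and every section of `P` is contained in a countable
union of `E1`-classes, then `P` is covered by countably many Borel sets, each of which has all its
sections contained in a single `EN k`-class for some `k`.
-/

open Set MeasureTheory Topology

namespace Pool.Agent.Pf8fe2f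

/-- Equality from the coordinate `n` on. -/
def EN (n : ℕ) (z z' : ℕ → ℝ) : Prop := ∀ m, n ≤ m → z m = z' m

/-- Eventual equality. -/
def E1 (z z' : ℕ → ℝ) : Prop := ∃ n, EN n z z'

theorem EN.symm {n : ℕ} {z z' : ℕ → ℝ} (h : EN n z z') : EN n z' z := fun m hm => (h m hm).symm

theorem EN.trans {n : ℕ} {z z' z'' : ℕ → ℝ} (h : EN n z z') (h' : EN n z' z'') : EN n z z'' :=
  fun m hm => (h m hm).trans (h' m hm)

theorem EN.refl (n : ℕ) (z : ℕ → ℝ) : EN n z z := fun _ _ => rfl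

theorem EN.mono {n n' : ℕ} (hn : n ≤ n') {z z' : ℕ → ℝ} (h : EN n z z') : EN n' z z' :=
  fun m hm => h m (hn.trans hm)

theorem E1.symm {z z' : ℕ → ℝ} (h : E1 z z') : E1 z' z := by
  obtain ⟨n, h⟩ := h
  exact ⟨n, h.symm⟩

theorem E1.refl (z : ℕ → ℝ) : E1 z z := ⟨0, EN.refl 0 z⟩

theorem E1.trans {z z' z'' : ℕ → ℝ} (h : E1 z z') (h' : E1 z' z'') : E1 z z'' := by
  obtain ⟨n, h⟩ := h
  obtain ⟨n', h'⟩ := h'
  exact ⟨max n n', (h.mono (le_max_left _ _)).trans (h'.mono (le_max_right _ _))⟩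

theorem isClosed_EN {α : Type*} [TopologicalSpace α] (n : ℕ) {f g : α → ℕ → ℝ}
    (hf : Continuous f) (hg : Continuous g) : IsClosed {x | EN n (f x) (g x)} := by
  have : {x | EN n (f x) (g x)} = ⋂ m, ⋂ (_ : n ≤ m), {x | f x m = g x m} := by
    ext x
    simp only [Set.mem_iInter]
    rfl
  rw [this]
  refine isClosed_iInter fun m => isClosed_iInter fun _ => isClosed_eq ?_ ?_
  · exact (continuous_apply m).comp hf
  · exact (continuous_apply m).comp hg

theorem measurableSet_EN {α : Type*} [MeasurableSpace α] (n : ℕ) {f g : α → ℕ → ℝ}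
    (hf : Measurable f) (hg : Measurable g) : MeasurableSet {x | EN n (f x) (g x)} := by
  have h : MeasurableSet {p : (ℕ → ℝ) × (ℕ → ℝ) | EN n p.1 p.2} :=
    (isClosed_EN n continuous_fst continuous_snd).measurableSet
  exact (hf.prodMk hg) h

theorem measurableSet_E1 {α : Type*} [MeasurableSpace α] {f g : α → ℕ → ℝ}
    (hf : Measurable f) (hg : Measurable g) : MeasurableSet {x | E1 (f x) (g x)} := by
  have : {x | E1 (f x) (g x)} = ⋃ n, {x | EN n (f x) (g x)} := by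
    ext x
    simp only [Set.mem_iUnion]
    rfl
  rw [this]
  exact MeasurableSet.iUnion fun n => measurableSet_EN n hf hg

theorem exists_closed_EN (n : ℕ) : ∃ K : ℕ → Set ((ℕ → ℝ) × (ℕ → ℝ)), (∀ r, IsClosed (K r)) ∧
    ∀ z z', ¬ EN n z z' ↔ ∃ r, (z, z') ∈ K r := by
  let := TopologicalSpace.metrizableSpaceMetric ((ℕ → ℝ) × (ℕ → ℝ))
  have ho : IsOpen {p : (ℕ → ℝ) × (ℕ → ℝ) | EN n p.1 p.2}ᶜ :=
    (isClosed_EN n continuous_fst continuous_snd).isOpen_compl
  obtain ⟨K, h1, h2, h3, h4⟩ := ho.exists_iUnion_isClosed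
  refine ⟨K, h1, fun z z' => ?_⟩
  have : (z, z') ∈ {p : (ℕ → ℝ) × (ℕ → ℝ) | EN n p.1 p.2}ᶜ ↔ ∃ r, (z, z') ∈ K r := by
    rw [← h3, Set.mem_iUnion]
  exact this

/-- All sections of `S` are contained in one class of `EN k`. -/
def SmallK {V : Type*} (k : ℕ) (S : Set (V × (ℕ → ℝ))) : Prop :=
  ∀ v z z', (v, z) ∈ S → (v, z') ∈ S → EN k z z'

/-- covered by countably many Borel sets with small sections -/
def Small {V : Type*} [MeasurableSpace V] (Q : Set (V × (ℕ → ℝ))) : Prop :=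
  ∃ (S : ℕ → Set (V × (ℕ → ℝ))) (k : ℕ → ℕ), (∀ j, MeasurableSet (S j)) ∧
    (∀ j, SmallK (k j) (S j)) ∧ Q ⊆ ⋃ j, S j

theorem Small.of_smallK {V : Type*} [MeasurableSpace V] {Q : Set (V × (ℕ → ℝ))} {k : ℕ}
    (h : SmallK k Q) (hm : MeasurableSet Q) : Small Q :=
  ⟨fun _ => Q, fun _ => k, fun _ => hm, fun _ => h, Set.subset_iUnion (fun _ : ℕ => Q) 0⟩

theorem Small.mono {V : Type*} [MeasurableSpace V] {Q Q' : Set (V × (ℕ → ℝ))} (h : Small Q')
    (hQ : Q ⊆ Q') : Small Q := by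
  obtain ⟨S, k, h1, h2, h3⟩ := h
  exact ⟨S, k, h1, h2, hQ.trans h3⟩

theorem small_empty {V : Type*} [MeasurableSpace V] : Small (∅ : Set (V × (ℕ → ℝ))) :=
  Small.of_smallK (k := 0) (fun _ _ _ h => absurd h (by simp)) MeasurableSet.empty

theorem Small.iUnion {V : Type*} [MeasurableSpace V] {ι : Type*} [Countable ι]
    {Q : ι → Set (V × (ℕ → ℝ))} (h : ∀ i, Small (Q i)) : Small (⋃ i, Q i) := by
  rcases isEmpty_or_nonempty ι with hι | hι
  · rw [Set.iUnion_of_empty]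
    exact small_empty
  choose S k h1 h2 h3 using h
  obtain ⟨e, he⟩ := exists_surjective_nat (ι × ℕ)
  refine ⟨fun j => S (e j).1 (e j).2, fun j => k (e j).1 (e j).2, fun j => h1 _ _,
    fun j => h2 _ _, ?_⟩
  refine Set.iUnion_subset fun i => (h3 i).trans (Set.iUnion_subset fun j => ?_)
  obtain ⟨n, hn⟩ := he (i, j)
  intro x hx
  rw [Set.mem_iUnion]
  exact ⟨n, by rw [hn]; exact hx⟩

theorem Small.union {V : Type*} [MeasurableSpace V] {Q Q' : Set (V × (ℕ → ℝ))} (h : Small Q)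
    (h' : Small Q') : Small (Q ∪ Q') := by
  rw [Set.union_eq_iUnion]
  exact Small.iUnion fun b => by cases b <;> assumption

/-- an analytic set with small sections is contained in a Borel set with small sections -/
theorem exists_borel_small {V : Type*} [TopologicalSpace V] [PolishSpace V] [MeasurableSpace V]
    [BorelSpace V] {A : Set (V × (ℕ → ℝ))} (hA : AnalyticSet A) {k : ℕ} (h : SmallK k A) :
    ∃ B, MeasurableSet B ∧ A ⊆ B ∧ SmallK k B := by
  have hC : MeasurableSet {p : (V × (ℕ → ℝ)) × (V × (ℕ → ℝ)) | p.1.1 = p.2.1 ∧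
      ¬ EN k p.1.2 p.2.2} := by
    refine MeasurableSet.inter ?_ ?_
    · exact measurableSet_eq_fun (by fun_prop) (by fun_prop)
    · exact (measurableSet_EN k (by fun_prop) (by fun_prop)).compl
  obtain ⟨B, hB, hAB, hBC⟩ := sep2 hA hC.analyticSet (by
    rintro ⟨v, z⟩ hx ⟨v', z'⟩ hy ⟨h1, h2⟩
    dsimp only at h1 h2
    subst h1
    exact h2 (h v z z' hx hy))
  refine ⟨B, hB, hAB, fun v z z' hz hz' => ?_⟩
  by_contra hcon
  exact hBC _ hz _ hz' ⟨rfl, hcon⟩

section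

variable {V : Type*} (ψ : (ℕ → ℕ) → V × (ℕ → ℝ)) (K : ℕ → ℕ → Set ((ℕ → ℝ) × (ℕ → ℝ)))

/-- the bookkeeping function -/
def bk (k : ℕ) : ℕ := (Nat.unpair k).1

theorem bk_le (k : ℕ) : bk k ≤ k := Nat.unpair_left_le k

theorem bk_inf (i N : ℕ) : ∃ k, N ≤ k ∧ bk k = i :=
  ⟨Nat.pair i N, Nat.right_le_pair i N, by rw [bk, Nat.unpair_pair]⟩

/-- Approximations: the number of the last point, the first digits of the points, and the codes. -/
abbrev Apx : Type := ℕ × (ℕ × ℕ →₀ ℕ) × (ℕ →₀ ℕ)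

/-- A configuration `γ` is compatible with an approximation, off the set `N`. -/
def Cpt (a : Apx) (N : Set (V × (ℕ → ℝ))) (γ : ℕ → ℕ → ℕ) : Prop :=
  (∀ i ≤ a.1, ∀ j < a.1, γ i j = a.2.1 (i, j)) ∧ (∀ i ≤ a.1, ψ (γ i) ∉ N) ∧
    (∀ i ≤ a.1, (ψ (γ i)).1 = (ψ (γ 0)).1) ∧
    ∀ i < a.1, ((ψ (γ (bk i))).2, (ψ (γ (i + 1))).2) ∈ K i (a.2.2 i)

/-- one step extension -/
def Xt (a b : Apx) : Prop :=
  b.1 = a.1 + 1 ∧ (∀ i ≤ a.1, ∀ j < a.1, b.2.1 (i, j) = a.2.1 (i, j)) ∧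
    (∀ j < a.1, b.2.1 (a.1 + 1, j) = a.2.1 (bk a.1, j)) ∧ ∀ i < a.1, b.2.2 i = a.2.2 i

/-- terminal approximations -/
def Tm (a : Apx) (N : Set (V × (ℕ → ℝ))) : Prop := ∀ b γ, Xt a b → ¬ Cpt ψ K b N γ

/-- the points of compatible configurations which are going to be copied -/
def Aset (a : Apx) (N : Set (V × (ℕ → ℝ))) : Set (V × (ℕ → ℝ)) :=
  (fun γ : ℕ → ℕ → ℕ => ψ (γ (bk a.1))) '' {γ | Cpt ψ K a N γ}

variable {ψ K}

theorem Tm.mono {a : Apx} {N N' : Set (V × (ℕ → ℝ))} (h : Tm ψ K a N) (hN : N ⊆ N') :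
    Tm ψ K a N' :=
  fun b γ hb hγ => h b γ hb ⟨hγ.1, fun i hi hm => hγ.2.1 i hi (hN hm), hγ.2.2⟩

theorem Cpt.of_xt {a b : Apx} {N : Set (V × (ℕ → ℝ))} {γ : ℕ → ℕ → ℕ} (h : Xt a b)
    (hγ : Cpt ψ K b N γ) : Cpt ψ K a N γ := by
  obtain ⟨h1, h2, h3, h4⟩ := h
  obtain ⟨g1, g2, g3, g4⟩ := hγ
  rw [h1] at g1 g2 g3 g4
  refine ⟨fun i hi j hj => ?_, fun i hi => g2 i (by omega), fun i hi => g3 i (by omega),
    fun i hi => ?_⟩
  · rw [g1 i (by omega) j (by omega), h2 i hi j hj]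
  · rw [← h4 i hi]
    exact g4 i (by omega)

/-- gluing two configurations -/
theorem glue (hK : ∀ n z z', ¬ EN n z z' ↔ ∃ r, (z, z') ∈ K n r) {a : Apx}
    {N : Set (V × (ℕ → ℝ))} {γ γ' : ℕ → ℕ → ℕ} (hγ : Cpt ψ K a N γ) (hγ' : Cpt ψ K a N γ')
    (hv : (ψ (γ (bk a.1))).1 = (ψ (γ' (bk a.1))).1)
    (hE : ¬ EN a.1 (ψ (γ (bk a.1))).2 (ψ (γ' (bk a.1))).2) : ¬ Tm ψ K a N := by
  obtain ⟨r, hr⟩ := (hK _ _ _).1 hE
  obtain ⟨g1, g2, g3, g4⟩ := hγ
  obtain ⟨g1', g2', g3', g4'⟩ := hγ'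
  let δ : ℕ → ℕ → ℕ := fun i => if i ≤ a.1 then γ i else γ' (bk a.1)
  have hδ1 : ∀ i, i ≤ a.1 → δ i = γ i := fun i hi => if_pos hi
  have hδ2 : ∀ i, ¬ i ≤ a.1 → δ i = γ' (bk a.1) := fun i hi => if_neg hi
  have hbk := bk_le a.1
  let φ : ℕ × ℕ →₀ ℕ := Finsupp.onFinset
    (Finset.range (a.1 + 2) ×ˢ Finset.range (a.1 + 1))
    (fun p => if p.1 < a.1 + 2 ∧ p.2 < a.1 + 1 then δ p.1 p.2 else 0) (by
      intro p hp
      by_contra hcon
      apply hp
      rw [if_neg]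
      simpa using hcon)
  have hφ : ∀ i j, i < a.1 + 2 → j < a.1 + 1 → φ (i, j) = δ i j := by
    intro i j hi hj
    show (if i < a.1 + 2 ∧ j < a.1 + 1 then δ i j else 0) = _
    rw [if_pos ⟨hi, hj⟩]
  let ρ : ℕ →₀ ℕ := a.2.2.update a.1 r
  have hρ1 : ρ a.1 = r := by simp [ρ]
  have hρ2 : ∀ i, i ≠ a.1 → ρ i = a.2.2 i := by
    intro i hi
    simp [ρ, Finsupp.update_apply, hi]
  intro hT
  apply hT (a.1 + 1, φ, ρ) δ
  · refine ⟨rfl, fun i hi j hj => ?_, fun j hj => ?_, fun i hi => hρ2 i (by omega)⟩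
    · show φ (i, j) = _
      rw [hφ i j (by omega) (by omega), hδ1 i hi, g1 i hi j hj]
    · show φ (a.1 + 1, j) = _
      rw [hφ _ j (by omega) (by omega), hδ2 _ (by omega), g1' _ hbk j hj]
  · refine ⟨fun i hi j hj => ?_, fun i hi => ?_, fun i hi => ?_, fun i hi => ?_⟩
    · dsimp only at hi hj
      show _ = φ (i, j)
      rw [hφ i j (by omega) (by omega)]
    · by_cases h : i ≤ a.1
      · rw [hδ1 i h]
        exact g2 i h
      · rw [hδ2 i h]
        exact g2' _ hbk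
    · rw [hδ1 0 (by omega)]
      by_cases h : i ≤ a.1
      · rw [hδ1 i h]
        exact g3 i h
      · rw [hδ2 i h, ← hv]
        exact g3 _ hbk
    · dsimp only at hi
      have hb := bk_le i
      show ((ψ (δ (bk i))).2, (ψ (δ (i + 1))).2) ∈ K i (ρ i)
      rcases Nat.lt_succ_iff_lt_or_eq.1 hi with h | h
      · rw [hρ2 i (by omega), hδ1 _ (by omega), hδ1 _ (by omega)]
        exact g4 i h
      · rw [h, hρ1, hδ1 _ hbk, hδ2 _ (by omega)]
        exact hr

theorem smallK_aset (hK : ∀ n z z', ¬ EN n z z' ↔ ∃ r, (z, z') ∈ K n r) {a : Apx}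
    {N : Set (V × (ℕ → ℝ))} (hT : Tm ψ K a N) : SmallK a.1 (Aset ψ K a N) := by
  rintro v z z' ⟨γ, hγ, h1⟩ ⟨γ', hγ', h2⟩
  by_contra hE
  refine glue hK hγ hγ' ?_ ?_ hT
  · dsimp only at h1 h2
    rw [h1, h2]
  · dsimp only at h1 h2
    rw [h1, h2]
    exact hE

theorem an_aset [TopologicalSpace V] [PolishSpace V] [MeasurableSpace V] [BorelSpace V]
    (hψ : Continuous ψ) (hKc : ∀ n r, IsClosed (K n r)) (a : Apx) {N : Set (V × (ℕ → ℝ))}
    (hN : MeasurableSet N) : AnalyticSet (Aset ψ K a N) := by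
  have hc : ∀ i, Continuous fun γ : ℕ → ℕ → ℕ => ψ (γ i) :=
    fun i => hψ.comp (continuous_apply i)
  refine AnalyticSet.image_of_continuous (MeasurableSet.analyticSet ?_) (hc _)
  have : {γ : ℕ → ℕ → ℕ | Cpt ψ K a N γ} =
      (⋂ i, ⋂ (_ : i ≤ a.1), ⋂ j, ⋂ (_ : j < a.1), {γ | γ i j = a.2.1 (i, j)}) ∩
      ((⋂ i, ⋂ (_ : i ≤ a.1), (fun γ => ψ (γ i)) ⁻¹' Nᶜ) ∩
      ((⋂ i, ⋂ (_ : i ≤ a.1), {γ | (ψ (γ i)).1 = (ψ (γ 0)).1}) ∩
      (⋂ i, ⋂ (_ : i < a.1), (fun γ => ((ψ (γ (bk i))).2, (ψ (γ (i + 1))).2)) ⁻¹'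
        K i (a.2.2 i)))) := by
    ext γ
    simp only [Set.mem_inter_iff, Set.mem_iInter]
    rfl
  rw [this]
  refine MeasurableSet.inter ?_ (MeasurableSet.inter ?_ (MeasurableSet.inter ?_ ?_))
  · refine MeasurableSet.iInter fun i => MeasurableSet.iInter fun _ =>
      MeasurableSet.iInter fun j => MeasurableSet.iInter fun _ => ?_
    exact (isClosed_eq (by fun_prop) continuous_const).measurableSet
  · refine MeasurableSet.iInter fun i => MeasurableSet.iInter fun _ => ?_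
    exact (hc i).measurable hN.compl
  · refine MeasurableSet.iInter fun i => MeasurableSet.iInter fun _ => ?_
    exact (isClosed_eq (continuous_fst.comp (hc i)) (continuous_fst.comp (hc 0))).measurableSet
  · refine MeasurableSet.iInter fun i => MeasurableSet.iInter fun _ => ?_
    refine ((hKc i _).preimage ?_).measurableSet
    exact (continuous_snd.comp (hc _)).prodMk (continuous_snd.comp (hc _))

end

/-- **The covering lemma.** -/
theorem covering {V : Type*} [TopologicalSpace V] [PolishSpace V] [MeasurableSpace V]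
    [BorelSpace V] {P : Set (V × (ℕ → ℝ))} (hP : AnalyticSet P)
    (hc : ∀ v, ∃ D : Set (ℕ → ℝ), D.Countable ∧ ∀ z, (v, z) ∈ P → ∃ d ∈ D, E1 d z) :
    Small P := by
  rw [AnalyticSet] at hP
  rcases hP with rfl | ⟨ψ, hψ, hr⟩
  · exact small_empty
  choose K hKc hK using exists_closed_EN
  -- dead approximations
  let Dead : Apx → Prop := fun a => ∃ N, MeasurableSet N ∧ Small N ∧ Tm ψ K a N
  have h0 : ∀ a : Apx, ∃ N, MeasurableSet N ∧ Small N ∧ (Dead a → Tm ψ K a N) := by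
    intro a
    by_cases h : Dead a
    · obtain ⟨N, h1, h2, h3⟩ := h
      exact ⟨N, h1, h2, fun _ => h3⟩
    · exact ⟨∅, MeasurableSet.empty, small_empty, fun h' => absurd h' h⟩
  choose N0 hN0m hN0s hN0T using h0
  let N1 := ⋃ a, N0 a
  have hN1m : MeasurableSet N1 := MeasurableSet.iUnion hN0m
  have hN1s : Small N1 := Small.iUnion hN0s
  have hN1T : ∀ a, Dead a → Tm ψ K a N1 := fun a ha => (hN0T a ha).mono (Set.subset_iUnion N0 a)
  have h1 : ∀ a : Apx, ∃ B, MeasurableSet B ∧ Small B ∧ (Dead a → Aset ψ K a N1 ⊆ B) := by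
    intro a
    by_cases h : Dead a
    · obtain ⟨B, hB, hAB, hBs⟩ := exists_borel_small (an_aset hψ hKc a hN1m)
        (smallK_aset hK (hN1T a h))
      exact ⟨B, hB, Small.of_smallK hBs hB, fun _ => hAB⟩
    · exact ⟨∅, MeasurableSet.empty, small_empty, fun h' => absurd h' h⟩
  choose B hBm hBs hBA using h1
  let N2 := N1 ∪ ⋃ a, B a
  have hN2m : MeasurableSet N2 := hN1m.union (MeasurableSet.iUnion hBm)
  have hN2s : Small N2 := hN1s.union (Small.iUnion hBs)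
  have hBN : ∀ a, B a ⊆ N2 := fun a => (Set.subset_iUnion B a).trans Set.subset_union_right
  -- non dead approximations have non dead one step extensions
  have hnext : ∀ a, ¬ Dead a → ∃ b, Xt a b ∧ ¬ Dead b := by
    intro a ha
    have hT : ¬ Tm ψ K a N2 := fun h => ha ⟨N2, hN2m, hN2s, h⟩
    unfold Tm at hT
    push Not at hT
    obtain ⟨b, γ, hab, hγ⟩ := hT
    refine ⟨b, hab, fun hb => ?_⟩
    have hmem : ψ (γ (bk b.1)) ∈ Aset ψ K b N1 :=
      ⟨γ, ⟨hγ.1, fun i hi hm => hγ.2.1 i hi (Or.inl hm), hγ.2.2⟩, rfl⟩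
    exact hγ.2.1 _ (bk_le _) (hBN b (hBA b hb hmem))
  by_cases hd : Dead (0, 0, 0)
  · -- everything is covered
    refine hN2s.mono fun p hp => ?_
    by_contra hcon
    obtain ⟨b, rfl⟩ : ∃ b, ψ b = p := by rwa [← hr] at hp
    have : ψ b ∈ Aset ψ K (0, 0, 0) N1 := by
      refine ⟨fun _ => b, ⟨fun i _ j hj => absurd hj (by simp), fun i _ hm => ?_,
        fun i _ => rfl, fun i hi => absurd hi (by simp)⟩, rfl⟩
      exact hcon (Or.inl hm)
    exact hcon (hBN _ (hBA _ hd this))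
  -- otherwise build a sequence
  exfalso
  choose! nx hnx1 hnx2 using hnext
  let s : ℕ → Apx := fun k => Nat.rec (0, 0, 0) (fun _ a => nx a) k
  have hs0 : s 0 = (0, 0, 0) := rfl
  have hss : ∀ k, s (k + 1) = nx (s k) := fun k => rfl
  have hsd : ∀ k, ¬ Dead (s k) := by
    intro k
    induction k with
    | zero => exact hd
    | succ k ih => exact hnx2 _ ih
  have hsx : ∀ k, Xt (s k) (s (k + 1)) := fun k => hnx1 _ (hsd k)
  have hsk : ∀ k, (s k).1 = k := by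
    intro k
    induction k with
    | zero => rfl
    | succ k ih => rw [(hsx k).1, ih]
  -- the limit digits and codes
  have hst : ∀ i j k, i ≤ k → j < k → ∀ k', k ≤ k' → (s k').2.1 (i, j) = (s k).2.1 (i, j) := by
    intro i j k hi hj k' hk'
    induction k' with
    | zero =>
      obtain rfl : k = 0 := by omega
      rfl
    | succ k' ih =>
      rcases Nat.lt_or_ge k' k with h | h
      · obtain rfl : k = k' + 1 := by omega
        rfl
      · rw [(hsx k').2.1 i (by rw [hsk]; omega) j (by rw [hsk]; omega), ih h]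
  have hsr : ∀ i k, i < k → ∀ k', k ≤ k' → (s k').2.2 i = (s k).2.2 i := by
    intro i k hi k' hk'
    induction k' with
    | zero =>
      obtain rfl : k = 0 := by omega
      rfl
    | succ k' ih =>
      rcases Nat.lt_or_ge k' k with h | h
      · obtain rfl : k = k' + 1 := by omega
        rfl
      · rw [(hsx k').2.2.2 i (by rw [hsk]; omega), ih h]
  let g : ℕ → ℕ → ℕ := fun i j => (s (max i (j + 1))).2.1 (i, j)
  have hg : ∀ i j k, i ≤ k → j < k → (s k).2.1 (i, j) = g i j := by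
    intro i j k hi hj
    exact hst i j (max i (j + 1)) (le_max_left _ _) (by omega) k (by omega)
  have hcopy : ∀ k j, j < k → g (k + 1) j = g (bk k) j := by
    intro k j hj
    rw [← hg (k + 1) j (k + 1) le_rfl (by omega), ← hg (bk k) j k (bk_le k) hj]
    have := (hsx k).2.2.1 j (by rw [hsk]; exact hj)
    rw [hsk] at this
    exact this
  -- compatible configurations
  have hconf : ∀ k, ∃ γ, Cpt ψ K (s k) N2 γ := by
    intro k
    have hT : ¬ Tm ψ K (s k) N2 := fun h => hsd k ⟨N2, hN2m, hN2s, h⟩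
    unfold Tm at hT
    push Not at hT
    obtain ⟨b, γ, hab, hγ⟩ := hT
    exact ⟨γ, hγ.of_xt hab⟩
  choose γ hγ using hconf
  have hlim : ∀ i, Filter.Tendsto (fun k => γ k i) Filter.atTop (𝓝 (g i)) := by
    intro i
    rw [tendsto_pi_nhds]
    intro j
    apply tendsto_const_nhds.congr'
    filter_upwards [Filter.eventually_ge_atTop (max i (j + 1))] with k hk
    have h1 := (hγ k).1 i (by rw [hsk]; omega) j (by rw [hsk]; omega)
    rw [h1, hg i j k (by omega) (by omega)]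
  have hψl : ∀ i, Filter.Tendsto (fun k => ψ (γ k i)) Filter.atTop (𝓝 (ψ (g i))) :=
    fun i => (hψ.tendsto _).comp (hlim i)
  have hfst : ∀ i, (ψ (g i)).1 = (ψ (g 0)).1 := by
    intro i
    have h1 : Filter.Tendsto (fun k => (ψ (γ k i)).1) Filter.atTop (𝓝 (ψ (g i)).1) :=
      (continuous_fst.tendsto _).comp (hψl i)
    have h2 : Filter.Tendsto (fun k => (ψ (γ k 0)).1) Filter.atTop (𝓝 (ψ (g 0)).1) :=
      (continuous_fst.tendsto _).comp (hψl 0)
    refine tendsto_nhds_unique h1 (h2.congr' ?_)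
    filter_upwards [Filter.eventually_ge_atTop i] with k hk
    exact ((hγ k).2.2.1 i (by rw [hsk]; exact hk)).symm
  have hne : ∀ i, ¬ EN i (ψ (g (bk i))).2 (ψ (g (i + 1))).2 := by
    intro i
    rw [hK]
    refine ⟨(s (i + 1)).2.2 i, ?_⟩
    have h1 : Filter.Tendsto (fun k => ((ψ (γ k (bk i))).2, (ψ (γ k (i + 1))).2)) Filter.atTop
        (𝓝 ((ψ (g (bk i))).2, (ψ (g (i + 1))).2)) :=
      ((continuous_snd.tendsto _).comp (hψl _)).prodMk_nhds
        ((continuous_snd.tendsto _).comp (hψl _))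
    refine (hKc i _).mem_of_tendsto h1 ?_
    filter_upwards [Filter.eventually_ge_atTop (i + 1)] with k hk
    have h2 := (hγ k).2.2.2 i (by rw [hsk]; omega)
    rwa [hsr i (i + 1) (by omega) k hk] at h2
  -- Baire category
  let D : Set (ℕ → ℕ) := closure (Set.range g)
  have hDc : IsClosed D := isClosed_closure
  obtain ⟨D', hD'c, hD'⟩ := hc (ψ (g 0)).1
  have hDv : ∀ b ∈ D, (ψ b).1 = (ψ (g 0)).1 := by
    intro b hb
    have hcl : IsClosed {b | (ψ b).1 = (ψ (g 0)).1} :=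
      isClosed_eq (continuous_fst.comp hψ) continuous_const
    exact closure_minimal (by rintro _ ⟨i, rfl⟩; exact hfst i) hcl hb
  have : PolishSpace D := hDc.polishSpace
  have : Nonempty D := ⟨⟨g 0, subset_closure ⟨0, rfl⟩⟩⟩
  have : Countable D' := hD'c.to_subtype
  let f : D' × ℕ → Set D := fun p => {b | EN p.2 p.1.1 (ψ b.1).2}
  have hfc : ∀ p, IsClosed (f p) := fun p =>
    isClosed_EN _ continuous_const (continuous_snd.comp (hψ.comp continuous_subtype_val))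
  have hfU : ⋃ p, f p = Set.univ := by
    rw [Set.eq_univ_iff_forall]
    intro b
    have hb : ((ψ (g 0)).1, (ψ b.1).2) ∈ P := by
      rw [← hDv b.1 b.2, ← hr]
      exact ⟨b.1, rfl⟩
    obtain ⟨d, hd, n, hn⟩ := hD' _ hb
    rw [Set.mem_iUnion]
    exact ⟨(⟨d, hd⟩, n), hn⟩
  obtain ⟨⟨⟨d, hdD⟩, n⟩, hint⟩ := nonempty_interior_of_iUnion_of_closed hfc hfU
  obtain ⟨b, hb⟩ := hint
  rw [mem_interior] at hb
  obtain ⟨U, hUf, hUo, hbU⟩ := hb
  obtain ⟨W, hWo, hWU⟩ := isOpen_induced_iff.1 hUo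
  have hbW : b.1 ∈ W := by
    have : b ∈ Subtype.val ⁻¹' W := by rw [hWU]; exact hbU
    exact this
  -- a point of the sequence in `W`
  obtain ⟨_, hiW, i0, rfl⟩ := mem_closure_iff.1 b.2 W hWo hbW
  have hkey : ∀ i, g i ∈ W → EN n d (ψ (g i)).2 := by
    intro i hi
    have h1 : (⟨g i, subset_closure ⟨i, rfl⟩⟩ : D) ∈ U := by
      rw [← hWU]
      exact hi
    exact hUf h1
  have h3 : W ∈ 𝓝 (g i0) := hWo.mem_nhds hiW
  rw [nhds_pi, Filter.mem_pi] at h3
  obtain ⟨I, hI, t, ht, hsub⟩ := h3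
  obtain ⟨L, hL⟩ : ∃ L, ∀ l ∈ I, l < L := by
    obtain ⟨L, hL⟩ := hI.bddAbove
    exact ⟨L + 1, fun l hl => Nat.lt_succ_of_le (hL hl)⟩
  obtain ⟨i, hi, hbi⟩ := bk_inf i0 (max L n)
  have hgi : g (i + 1) ∈ W := by
    apply hsub
    intro l hl
    rw [hcopy i l (by have := hL l hl; omega), hbi]
    exact mem_of_mem_nhds (ht l)
  apply hne i
  rw [hbi]
  exact ((hkey i0 hiW).symm.trans (hkey (i + 1) hgi)).mono (by omega)

end Pool.Agent.Pf8fe2f
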