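import Pool.Agent.Lib.Pf8fe2f.Reflect

/-!
# Finite index Borel extensions of hypersmooth equivalence relations are hypersmooth
-/

open Set MeasureTheory Topology

namespace Pool.Agent.Pf8fe2f

/-- The set of pairs of points equivalent to points of `X` satisfying `P`. -/
def lift {X : Type*} (h : X → Z) (P : X → X → Prop) : Set (Z × Z) :=
  {p | ∃ q : X × X, E1 (h q.1) p.1 ∧ E1 (h q.2) p.2 ∧ P q.1 q.2}

theorem an_lift {X : Type*} [MeasurableSpace X] [StandardBorelSpace X] {h : X → Z}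
    (hh : Measurable h) {P : X → X → Prop} (hP : MeasurableSet {p : X × X | P p.1 p.2}) :
    AnalyticSet (lift h P) := by
  have h1 : MeasurableSet {r : (X × X) × (Z × Z) | E1 (h r.1.1) r.2.1 ∧ E1 (h r.1.2) r.2.2 ∧
      P r.1.1 r.1.2} :=
    (measurableSet_E1 (hh.comp (by fun_prop)) (by fun_prop)).inter
      ((measurableSet_E1 (hh.comp (by fun_prop)) (by fun_prop)).inter
        ((measurable_fst : Measurable fun r : (X × X) × (Z × Z) => r.1) hP))
  have h2 : lift h P = Prod.snd '' {r : (X × X) × (Z × Z) | E1 (h r.1.1) r.2.1 ∧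
      E1 (h r.1.2) r.2.2 ∧ P r.1.1 r.1.2} := by
    ext p
    constructor
    · rintro ⟨q, hq⟩
      exact ⟨(q, p), hq, rfl⟩
    · rintro ⟨⟨q, p'⟩, hq, rfl⟩
      exact ⟨q, hq⟩
  rw [h2]
  exact h1.analyticSet_image measurable_snd

/-- all points equivalent to a point of `h X` -/
def hull {X : Type*} (h : X → Z) : Set Z := {z | ∃ x, E1 (h x) z}

theorem an_hull {X : Type*} [MeasurableSpace X] [StandardBorelSpace X] {h : X → Z}
    (hh : Measurable h) : AnalyticSet (hull h) := by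
  have h1 : MeasurableSet {r : X × Z | E1 (h r.1) r.2} :=
    measurableSet_E1 (hh.comp measurable_fst) measurable_snd
  have h2 : hull h = Prod.snd '' {r : X × Z | E1 (h r.1) r.2} := by
    ext p
    constructor
    · rintro ⟨q, hq⟩
      exact ⟨(q, p), hq, rfl⟩
    · rintro ⟨⟨q, p'⟩, hq, rfl⟩
      exact ⟨q, hq⟩
  rw [h2]
  exact h1.analyticSet_image measurable_snd

/-- A countable family of Borel sets distinguishing finite sets. -/
theorem exists_codes : ∃ O : ℕ → Set Z, (∀ q, MeasurableSet (O q)) ∧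
    ∀ s t : Set Z, s.Finite → t.Finite →
      (∀ q, (∃ a ∈ s, a ∈ O q) ↔ (∃ a ∈ t, a ∈ O q)) → s = t := by
  obtain ⟨b, hbc, -, hb⟩ := TopologicalSpace.exists_countable_basis Z
  obtain ⟨O, hO⟩ := (hbc.union (Set.countable_singleton (Set.univ : Set Z))).exists_eq_range
    ⟨Set.univ, Or.inr rfl⟩
  have hOm : ∀ q, MeasurableSet (O q) := by
    intro q
    have : O q ∈ b ∪ {Set.univ} := by rw [hO]; exact ⟨q, rfl⟩
    rcases this with h | h
    · exact (hb.isOpen h).measurableSet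
    · rw [Set.mem_singleton_iff.1 h]
      exact MeasurableSet.univ
  have key : ∀ s t : Set Z, t.Finite →
      (∀ q, (∃ a ∈ s, a ∈ O q) → (∃ a ∈ t, a ∈ O q)) → s ⊆ t := by
    intro s t ht h a ha
    by_contra hat
    obtain ⟨v, hv, hav, hvt⟩ := hb.exists_subset_of_mem_open (u := tᶜ) hat
      ht.isClosed.isOpen_compl
    have : v ∈ Set.range O := by rw [← hO]; exact Or.inl hv
    obtain ⟨q, rfl⟩ := this
    obtain ⟨c, hc, hcO⟩ := h q ⟨a, ha, hav⟩
    exact hvt hcO hc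
  exact ⟨O, hOm, fun s t hs ht h => Set.Subset.antisymm (key s t ht fun q => (h q).1)
    (key t s hs fun q => (h q).2)⟩

theorem zr_zr (n : ℕ) (y : Z) : zr (n + 1) (zr n y) = zr (n + 1) y := by
  rw [zr_eq]
  exact ((EN_zr n y).symm).mono (Nat.le_succ n)

/-- **Main theorem**, in terms of Borel maps `f n : X → ℝ`. -/
theorem main {X : Type*} [MeasurableSpace X] [StandardBorelSpace X] (f : ℕ → X → ℝ)
    (hf : ∀ n, Measurable (f n)) (hfs : ∀ n x y, f n x = f n y → f (n + 1) x = f (n + 1) y)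
    (F : X → X → Prop) (hF : Equivalence F) (hFm : MeasurableSet {p : X × X | F p.1 p.2})
    (hEF : ∀ n x y, f n x = f n y → F x y)
    (hfin : ∀ x, ∃ s : Set X, s.Finite ∧ ∀ y, F x y → ∃ z ∈ s, ∃ n, f n z = f n y) :
    ∃ c : ℕ → X → ℝ, (∀ n, Measurable (c n)) ∧
      (∀ n x y, c n x = c n y → c (n + 1) x = c (n + 1) y) ∧
      ∀ x y, F x y ↔ ∃ n, c n x = c n y := by
  classical
  let h : X → Z := fun x n => f n x
  have hh : Measurable h := measurable_pi_iff.2 hf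
  have hE : ∀ x y, E1 (h x) (h y) ↔ ∃ n, f n x = f n y := by
    intro x y
    constructor
    · rintro ⟨n, hn⟩
      exact ⟨n, hn n le_rfl⟩
    · rintro ⟨n, hn⟩
      refine ⟨n, fun m hm => ?_⟩
      show f m x = f m y
      induction m, hm using Nat.le_induction with
      | base => exact hn
      | succ m hm ih => exact hfs m x y ih
  have hEF' : ∀ x y, E1 (h x) (h y) → F x y := by
    intro x y hxy
    obtain ⟨n, hn⟩ := (hE x y).1 hxy
    exact hEF n x y hn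
  let A := hull h
  have hA : AnalyticSet A := an_hull hh
  have hAi : Inv A := by
    rintro z z' ⟨x, hx⟩ hz
    exact ⟨x, hx.trans hz⟩
  let FS := lift h F
  let NS := lift h (fun x y => ¬ F x y)
  have hFS : AnalyticSet FS := an_lift hh hFm
  have hNS : AnalyticSet NS := an_lift hh hFm.compl
  have hdisj : ∀ p ∈ FS, p ∉ NS := by
    rintro ⟨z, z'⟩ ⟨⟨x, x'⟩, h1, h2, h3⟩ ⟨⟨y, y'⟩, g1, g2, g3⟩
    dsimp only at h1 h2 h3 g1 g2 g3
    have e1 := hEF' _ _ (h1.trans g1.symm)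
    have e2 := hEF' _ _ (h2.trans g2.symm)
    exact g3 (hF.trans (hF.trans (hF.symm e1) h3) e2)
  -- well definedness
  have hFSx : ∀ x x' z z', E1 (h x) z → E1 (h x') z' → ((z, z') ∈ FS ↔ F x x') := by
    intro x x' z z' h1 h2
    constructor
    · intro h3
      by_contra hn
      exact hdisj _ h3 ⟨(x, x'), h1, h2, hn⟩
    · intro h3
      exact ⟨(x, x'), h1, h2, h3⟩
  -- the covering lemma
  have hsmall : Small FS := by
    refine covering hFS fun v => ?_
    by_cases hv : ∃ x, E1 (h x) v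
    · obtain ⟨x, hx⟩ := hv
      obtain ⟨s, hs, hsF⟩ := hfin x
      refine ⟨h '' s, (hs.image h).countable, ?_⟩
      rintro z ⟨⟨y, y'⟩, g1, g2, g3⟩
      dsimp only at g1 g2 g3
      have e1 := hEF' _ _ (hx.trans g1.symm)
      obtain ⟨r, hr, hn⟩ := hsF y' (hF.trans e1 g3)
      exact ⟨h r, ⟨r, hr, rfl⟩, ((hE r y').2 hn).trans g2⟩
    · refine ⟨∅, Set.countable_empty, ?_⟩
      rintro z ⟨⟨y, y'⟩, g1, g2, g3⟩
      exact absurd ⟨y, g1⟩ hv
  obtain ⟨S, k, hSm, hSk, hSc⟩ := hsmall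
  obtain ⟨R0, hR0, hFR0, hR0N⟩ := sep1 hFS hNS hdisj
  let R : Set (Z × Z) := R0 ∩ ⋃ j, S j
  have hR : MeasurableSet R := hR0.inter (MeasurableSet.iUnion hSm)
  have hRs : Small R := ⟨S, k, hSm, hSk, Set.inter_subset_right⟩
  have hFR : FS ⊆ R := Set.subset_inter hFR0 hSc
  have hRA : ∀ z ∈ A, ∀ z' ∈ A, ((z, z') ∈ R ↔ (z, z') ∈ FS) := by
    rintro z ⟨x, hx⟩ z' ⟨x', hx'⟩
    constructor
    · intro hR'
      by_contra hn
      have : ¬ F x x' := fun hF' => hn ((hFSx x x' z z' hx hx').2 hF')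
      exact hR0N _ hR'.1 ⟨(x, x'), hx, hx', this⟩
    · intro hFS'
      exact hFR hFS'
  have hRx : ∀ x x' z z', E1 (h x) z → E1 (h x') z' → ((z, z') ∈ R ↔ F x x') := by
    intro x x' z z' h1 h2
    rw [hRA z ⟨x, h1⟩ z' ⟨x', h2⟩, hFSx x x' z z' h1 h2]
  -- first reflection
  let C : Set (Z × Z × Z) := ({p | E1 p.1 p.2.1} ∩ {p | (p.1, p.2.1) ∈ R}ᶜ) ∪
    (({p | (p.1, p.2.1) ∈ R} ∩ {p | (p.2.1, p.1) ∈ R}ᶜ) ∪
    ({p | (p.1, p.2.1) ∈ R} ∩ ({p | (p.2.1, p.2.2) ∈ R} ∩ {p | (p.1, p.2.2) ∈ R}ᶜ)))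
  have hC : MeasurableSet C := by
    have m1 : MeasurableSet {p : Z × Z × Z | (p.1, p.2.1) ∈ R} :=
      (by fun_prop : Measurable fun p : Z × Z × Z => (p.1, p.2.1)) hR
    have m2 : MeasurableSet {p : Z × Z × Z | (p.2.1, p.1) ∈ R} :=
      (by fun_prop : Measurable fun p : Z × Z × Z => (p.2.1, p.1)) hR
    have m3 : MeasurableSet {p : Z × Z × Z | (p.2.1, p.2.2) ∈ R} :=
      (by fun_prop : Measurable fun p : Z × Z × Z => (p.2.1, p.2.2)) hR
    have m4 : MeasurableSet {p : Z × Z × Z | (p.1, p.2.2) ∈ R} :=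
      (by fun_prop : Measurable fun p : Z × Z × Z => (p.1, p.2.2)) hR
    have m5 : MeasurableSet {p : Z × Z × Z | E1 p.1 p.2.1} :=
      measurableSet_E1 (by fun_prop) (by fun_prop)
    exact (m5.inter m1.compl).union ((m1.inter m2.compl).union (m1.inter (m3.inter m4.compl)))
  obtain ⟨A1, hA1, hAA1, hA1i, hA1C⟩ := inv_sep3 hA hAi hC.analyticSet (by
    rintro z ⟨x, hx⟩ z' ⟨x', hx'⟩ z'' ⟨x'', hx''⟩ hCz
    rcases hCz with ⟨h1, h2⟩ | ⟨h1, h2⟩ | ⟨h1, h2, h3⟩
    · apply h2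
      show (z, z') ∈ R
      rw [hRx x x' z z' hx hx']
      have h1' : E1 z z' := h1
      exact hEF' _ _ ((hx.trans h1').trans hx'.symm)
    · apply h2
      have h1' : (z, z') ∈ R := h1
      show (z', z) ∈ R
      rw [hRx x x' z z' hx hx'] at h1'
      rw [hRx x' x z' z hx' hx]
      exact hF.symm h1'
    · apply h3
      have h1' : (z, z') ∈ R := h1
      have h2' : (z', z'') ∈ R := h2
      show (z, z'') ∈ R
      rw [hRx x x' z z' hx hx'] at h1'
      rw [hRx x' x'' z' z'' hx' hx''] at h2'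
      rw [hRx x x'' z z'' hx hx'']
      exact hF.trans h1' h2')
  have hRE : ∀ x ∈ A1, ∀ y ∈ A1, E1 x y → (x, y) ∈ R := by
    intro x hx y hy hxy
    by_contra hn
    exact hA1C x hx y hy y hy (Or.inl ⟨hxy, hn⟩)
  have hRsy : ∀ x ∈ A1, ∀ y ∈ A1, (x, y) ∈ R → (y, x) ∈ R := by
    intro x hx y hy hxy
    by_contra hn
    exact hA1C x hx y hy y hy (Or.inr (Or.inl ⟨hxy, hn⟩))
  have hRt : ∀ x ∈ A1, ∀ y ∈ A1, ∀ z ∈ A1, (x, y) ∈ R → (y, z) ∈ R → (x, z) ∈ R := by
    intro x hx y hy z hz hxy hyz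
    by_contra hn
    exact hA1C x hx y hy z hz (Or.inr (Or.inr ⟨hxy, hyz, hn⟩))
  obtain ⟨D, g, hD, hg, hDg, henum⟩ := exists_enum hA1 hA1i hR hRs hRE hRt
  -- second reflection: finiteness of the index
  let T : ℕ → Set Z := fun n => ⋃ m, ({_z | n ≤ m} ∩ ((D m ∩ (g m) ⁻¹' A) ∩
    {z | ∀ i < m, ¬ (z ∈ D i ∧ E1 (g i z) (g m z))}))
  have hT : ∀ n, AnalyticSet (T n) := by
    intro n
    refine AnalyticSet.iUnion fun m => an_inter (MeasurableSet.const _).analyticSet ?_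
    refine an_inter (an_inter (hD m).analyticSet (an_preimage hA (hg m))) ?_
    refine MeasurableSet.analyticSet ?_
    have : {z | ∀ i < m, ¬ (z ∈ D i ∧ E1 (g i z) (g m z))} =
        ⋂ i, ⋂ (_ : i < m), (D i ∩ {z | E1 (g i z) (g m z)})ᶜ := by
      ext z
      simp only [Set.mem_iInter]
      rfl
    rw [this]
    exact MeasurableSet.iInter fun i => MeasurableSet.iInter fun _ =>
      ((hD i).inter (measurableSet_E1 (hg i) (hg m))).compl
  have hTe : ⋂ n, T n = ∅ := by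
    rw [Set.eq_empty_iff_forall_notMem]
    intro z hz
    rw [Set.mem_iInter] at hz
    -- the set of first occurrences of classes in `A`
    let M : Set ℕ := {m | (z ∈ D m ∧ g m z ∈ A) ∧ ∀ i < m, ¬ (z ∈ D i ∧ E1 (g i z) (g m z))}
    have hMu : ∀ n, ∃ m, n ≤ m ∧ m ∈ M := by
      intro n
      obtain ⟨m, hnm, hm⟩ := Set.mem_iUnion.1 (hz n)
      exact ⟨m, hnm, hm⟩
    obtain ⟨m0, -, hm0⟩ := hMu 0
    obtain ⟨x0, hx0⟩ := hm0.1.2
    obtain ⟨s, hs, hsF⟩ := hfin x0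
    have hrep : ∀ m, ∃ r, m ∈ M → r ∈ s ∧ E1 (h r) (g m z) := by
      intro m
      by_cases hm : m ∈ M
      · obtain ⟨x, hx⟩ := hm.1.2
        have h1 := hDg m z hm.1.1
        have h2 := hDg m0 z hm0.1.1
        have h3 : (g m0 z, g m z) ∈ R :=
          hRt _ h2.2.1 _ h1.1 _ h1.2.1 (hRsy _ h1.1 _ h2.2.1 h2.2.2) h1.2.2
        rw [hRx x0 x _ _ hx0 hx] at h3
        obtain ⟨r, hr, hn⟩ := hsF x h3
        exact ⟨r, fun _ => ⟨hr, ((hE r x).2 hn).trans hx⟩⟩
      · exact ⟨x0, fun h' => absurd h' hm⟩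
    choose r hr using hrep
    have hinj : Set.InjOn r M := by
      intro m hm m' hm' hrr
      have e1 := (hr m hm).2
      have e2 := (hr m' hm').2
      rw [hrr] at e1
      have e3 := e1.symm.trans e2
      rcases lt_trichotomy m m' with hlt | hlt | hlt
      · exact absurd ⟨hm.1.1, e3⟩ (hm'.2 m hlt)
      · exact hlt
      · exact absurd ⟨hm'.1.1, e3.symm⟩ (hm.2 m' hlt)
    have hMf : M.Finite := Set.Finite.of_injOn (fun m hm => (hr m hm).1) hinj hs
    obtain ⟨b, hb⟩ := hMf.bddAbove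
    obtain ⟨m, hm1, hm2⟩ := hMu (b + 1)
    have := hb hm2
    omega
  obtain ⟨B, hB, hTB, hBe⟩ := novikov T hT hTe
  -- good pairs
  let G : Set (Z × Z) := ⋃ m, ({p | p.1 ∈ D m ∧ E1 (g m p.1) p.2} ∩
    ⋂ n, ⋂ (_ : n ≤ m), Prod.fst ⁻¹' B n)
  have hG : MeasurableSet G := by
    refine MeasurableSet.iUnion fun m => MeasurableSet.inter ?_ ?_
    · exact (measurable_fst (hD m)).inter
        (measurableSet_E1 ((hg m).comp measurable_fst) measurable_snd)
    · exact MeasurableSet.iInter fun n => MeasurableSet.iInter fun _ => measurable_fst (hB n)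
  have hGm : ∀ z y, (z, y) ∈ G ↔ ∃ m, (z ∈ D m ∧ E1 (g m z) y) ∧ ∀ n ≤ m, z ∈ B n := by
    intro z y
    simp only [G, Set.mem_iUnion, Set.mem_inter_iff, Set.mem_iInter]
    rfl
  let Bad : Set Z := {y | ∃ z, (y, z) ∈ (fun p : Z × Z => (p.2, p.1)) ⁻¹'
    ((Prod.fst ⁻¹' A1 ∩ Prod.snd ⁻¹' A1) ∩ (R ∩ Gᶜ))}
  have hBad : AnalyticSet Bad := by
    refine an_proj (MeasurableSet.analyticSet ?_)
    exact (by fun_prop : Measurable fun p : Z × Z => (p.2, p.1))
      (((measurable_fst hA1).inter (measurable_snd hA1)).inter (hR.inter hG.compl))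
  obtain ⟨A2, hA2, hAA2, hA2i, hA2C⟩ := inv_sep1 hA hAi hBad (by
    rintro y hy ⟨z, ⟨hzA, hyA⟩, hzR, hzG⟩
    apply hzG
    rw [hGm]
    have hzA' : z ∈ A1 := hzA
    have hyA' : y ∈ A1 := hyA
    have hex := henum z hzA' y hyA' hzR
    let m := Nat.find hex
    have hm : z ∈ D m ∧ E1 (g m z) y := Nat.find_spec hex
    refine ⟨m, hm, fun n hn => hTB n ?_⟩
    refine Set.mem_iUnion.2 ⟨m, hn, ⟨hm.1, hAi _ _ hy hm.2.symm⟩, fun i hi hcon => ?_⟩
    exact Nat.find_min hex hi ⟨hcon.1, hcon.2.trans hm.2⟩)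
  -- the invariant Borel set on which `R` has finite index
  let A3 : Set Z := A2 ∩ A1
  have hA3 : MeasurableSet A3 := hA2.inter hA1
  have hAA3 : A ⊆ A3 := Set.subset_inter hAA2 hAA1
  have hA3i : Inv A3 := fun z z' hz hzz => ⟨hA2i z z' hz.1 hzz, hA1i z z' hz.2 hzz⟩
  have hgood : ∀ z ∈ A3, ∀ y ∈ A3, (z, y) ∈ R →
      ∃ m, (z ∈ D m ∧ E1 (g m z) y) ∧ ∀ n ≤ m, z ∈ B n := by
    intro z hz y hy hzy
    rw [← hGm]
    by_contra hn
    exact hA2C y hy.1 ⟨z, ⟨hz.2, hy.2⟩, hzy, hn⟩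
  let J : Z → Set ℕ := fun z => {m | (z ∈ D m ∧ g m z ∈ A3) ∧ ∀ n ≤ m, z ∈ B n}
  have hJf : ∀ z, (J z).Finite := by
    intro z
    obtain ⟨n, hn⟩ : ∃ n, z ∉ B n := by
      by_contra hcon
      push Not at hcon
      have : z ∈ ⋂ n, B n := Set.mem_iInter.2 hcon
      rw [hBe] at this
      exact this
    refine (Set.finite_lt_nat n).subset fun m hm => ?_
    by_contra hlt
    exact hn (hm.2 n (not_lt.1 hlt))
  have hJm : ∀ m, MeasurableSet {z | m ∈ J z} := by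
    intro m
    have : {z | m ∈ J z} = (D m ∩ (g m) ⁻¹' A3) ∩ ⋂ n, ⋂ (_ : n ≤ m), B n := by
      ext z
      simp only [Set.mem_inter_iff, Set.mem_iInter]
      rfl
    rw [this]
    exact ((hD m).inter ((hg m) hA3)).inter
      (MeasurableSet.iInter fun n => MeasurableSet.iInter fun _ => hB n)
  let θ : ℕ → Z → Set Z := fun n z => (fun m => zr n (g m z)) '' J z
  have hθf : ∀ n z, (θ n z).Finite := fun n z => (hJf z).image _
  have hθs : ∀ n z z', θ n z = θ n z' → θ (n + 1) z = θ (n + 1) z' := by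
    have : ∀ n z, θ (n + 1) z = zr (n + 1) '' θ n z := by
      intro n z
      simp only [θ, Set.image_image]
      refine Set.image_congr fun m _ => ?_
      rw [zr_zr]
    intro n z z' e
    rw [this, this, e]
  have hθR : ∀ z ∈ A3, ∀ z' ∈ A3, ((z, z') ∈ R ↔ ∃ n, θ n z = θ n z') := by
    intro z hz z' hz'
    constructor
    · intro hzz
      have hzz' := hRsy z hz.2 z' hz'.2 hzz
      -- one direction
      have key : ∀ z ∈ A3, ∀ z' ∈ A3, (z', z) ∈ R → ∃ n, ∀ m ∈ J z, ∃ m' ∈ J z',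
          EN n (g m z) (g m' z') := by
        intro z hz z' hz' hR'
        have h1 : ∀ m, ∃ n, m ∈ J z → ∃ m' ∈ J z', EN n (g m z) (g m' z') := by
          intro m
          by_cases hm : m ∈ J z
          · have hzg := (hDg m z hm.1.1).2.2
            have h2 : (z', g m z) ∈ R := hRt z' hz'.2 z hz.2 _ hm.1.2.2 hR' hzg
            obtain ⟨m', ⟨hm1, hm2⟩, hm3⟩ := hgood z' hz' _ hm.1.2 h2
            obtain ⟨n, hn⟩ := hm2
            exact ⟨n, fun _ => ⟨m', ⟨⟨hm1, hA3i _ _ hm.1.2 (E1.symm ⟨n, hn⟩)⟩, hm3⟩, hn.symm⟩⟩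
          · exact ⟨0, fun h' => absurd h' hm⟩
        choose n hn using h1
        obtain ⟨b, hb⟩ := ((hJf z).image n).bddAbove
        refine ⟨b, fun m hm => ?_⟩
        obtain ⟨m', hm', hE'⟩ := hn m hm
        exact ⟨m', hm', hE'.mono (hb ⟨m, hm, rfl⟩)⟩
      obtain ⟨n1, hn1⟩ := key z hz z' hz' hzz'
      obtain ⟨n2, hn2⟩ := key z' hz' z hz hzz
      refine ⟨max n1 n2, Set.Subset.antisymm ?_ ?_⟩
      · rintro _ ⟨m, hm, rfl⟩
        obtain ⟨m', hm', hE'⟩ := hn1 m hm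
        exact ⟨m', hm', (zr_eq.2 (hE'.mono (le_max_left _ _))).symm⟩
      · rintro _ ⟨m, hm, rfl⟩
        obtain ⟨m', hm', hE'⟩ := hn2 m hm
        exact ⟨m', hm', (zr_eq.2 (hE'.mono (le_max_right _ _))).symm⟩
    · rintro ⟨n, hn⟩
      obtain ⟨m, ⟨hm1, hm2⟩, hm3⟩ := hgood z hz z hz (hRE z hz.2 z hz.2 (E1.refl z))
      have hmJ : m ∈ J z := ⟨⟨hm1, hA3i _ _ hz hm2.symm⟩, hm3⟩
      have : zr n (g m z) ∈ θ n z' := by
        rw [← hn]
        exact ⟨m, hmJ, rfl⟩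
      obtain ⟨m', hm', he⟩ := this
      have he' : E1 (g m z) (g m' z') := E1.symm ⟨n, zr_eq.1 he⟩
      have h1 := hDg m z hm1
      have h2 := hDg m' z' hm'.1.1
      have h3 : (z, g m' z') ∈ R :=
        hRt z hz.2 _ h1.2.1 _ h2.2.1 h1.2.2 (hRE _ h1.2.1 _ h2.2.1 he')
      exact hRt z hz.2 _ h2.2.1 z' hz'.2 h3 (hRsy z' hz'.2 _ h2.2.1 h2.2.2)
  -- coding the finite sets
  obtain ⟨O, hO, hOs⟩ := exists_codes
  let cd : ℕ → Z → ℕ → Bool := fun n z q => decide (∃ m ∈ J z, zr n (g m z) ∈ O q)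
  have hcdm : ∀ n, Measurable (cd n) := by
    intro n
    rw [measurable_pi_iff]
    intro q
    refine measurable_to_bool ?_
    have : (fun z => cd n z q) ⁻¹' {true} = ⋃ m, ({z | m ∈ J z} ∩
        (fun z => zr n (g m z)) ⁻¹' O q) := by
      ext z
      simp only [cd, Set.mem_preimage, Set.mem_singleton_iff, decide_eq_true_eq, Set.mem_iUnion]
      rfl
    rw [this]
    exact MeasurableSet.iUnion fun m => (hJm m).inter (((measurable_zr n).comp (hg m)) (hO q))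
  have hcde : ∀ n z z', cd n z = cd n z' ↔ θ n z = θ n z' := by
    intro n z z'
    constructor
    · intro he
      refine hOs _ _ (hθf n z) (hθf n z') fun q => ?_
      have := congrFun he q
      simp only [cd, decide_eq_decide] at this
      simpa [θ] using this
    · intro he
      funext q
      simp only [cd, decide_eq_decide]
      have h1 : ∀ z, (∃ m ∈ J z, zr n (g m z) ∈ O q) ↔ ∃ a ∈ θ n z, a ∈ O q := by
        intro z
        simp [θ]
      rw [h1, h1, he]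
  refine ⟨fun n x => embeddingReal (ℕ → Bool) (cd n (h x)), fun n => ?_, fun n x y he => ?_,
    fun x y => ?_⟩
  · exact (measurableEmbedding_embeddingReal _).measurable.comp ((hcdm n).comp hh)
  · have h1 := (measurableEmbedding_embeddingReal (ℕ → Bool)).injective he
    have h2 := hθs n _ _ ((hcde n _ _).1 h1)
    dsimp only
    rw [(hcde (n + 1) _ _).2 h2]
  · have hxA : h x ∈ A3 := hAA3 ⟨x, E1.refl _⟩
    have hyA : h y ∈ A3 := hAA3 ⟨y, E1.refl _⟩
    rw [← hRx x y _ _ (E1.refl _) (E1.refl _), hθR _ hxA _ hyA]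
    refine exists_congr fun n => ?_
    rw [← hcde]
    exact (measurableEmbedding_embeddingReal (ℕ → Bool)).injective.eq_iff.symm

end Pool.Agent.Pf8fe2f
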