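import Mathlib

/-!
# Separation lemmas for analytic sets

* `sep2`, `sep3`: if an analytic set `A` has all its pairs (triples) outside an analytic set `C`,
  then some Borel superset of `A` has the same property (reflection by iterated Lusin separation);
* `novikov`: Novikov's separation theorem for a sequence of analytic sets with empty intersection.
-/

open Set MeasureTheory Topology

namespace Pool.Agent.Pf8fe2f

theorem an_inter {α : Type*} [TopologicalSpace α] [T2Space α] {s t : Set α}
    (hs : AnalyticSet s) (ht : AnalyticSet t) : AnalyticSet (s ∩ t) := by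
  have h : s ∩ t = ⋂ b : Bool, cond b s t := by
    rw [← Set.inter_eq_iInter]
  rw [h]
  exact AnalyticSet.iInter fun b => by cases b <;> assumption

/-- Lusin separation in a convenient form. -/
theorem sep1 {α : Type*} [TopologicalSpace α] [T2Space α] [MeasurableSpace α]
    [OpensMeasurableSpace α] {A C : Set α} (hA : AnalyticSet A) (hC : AnalyticSet C)
    (h : ∀ x ∈ A, x ∉ C) : ∃ B, MeasurableSet B ∧ A ⊆ B ∧ ∀ x ∈ B, x ∉ C := by
  obtain ⟨B, h1, h2, h3⟩ := hA.measurablySeparable hC (Set.disjoint_left.2 h)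
  exact ⟨B, h3, h1, fun x hx hxC => Set.disjoint_left.1 h2 hxC hx⟩

/-- projection along the second factor -/
theorem an_proj {α β : Type*} [TopologicalSpace α] [TopologicalSpace β] {C : Set (α × β)}
    (hC : AnalyticSet C) : AnalyticSet {x | ∃ y, (x, y) ∈ C} := by
  have : {x | ∃ y, (x, y) ∈ C} = Prod.fst '' C := by
    ext x
    simp
  rw [this]
  exact hC.image_of_continuous continuous_fst

theorem sep2 {α : Type*} [TopologicalSpace α] [PolishSpace α] [MeasurableSpace α] [BorelSpace α]
    {A : Set α} (hA : AnalyticSet A) {C : Set (α × α)} (hC : AnalyticSet C)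
    (h : ∀ x ∈ A, ∀ y ∈ A, (x, y) ∉ C) :
    ∃ B, MeasurableSet B ∧ A ⊆ B ∧ ∀ x ∈ B, ∀ y ∈ B, (x, y) ∉ C := by
  have h1 : AnalyticSet {x | ∃ y, (x, y) ∈ C ∩ Prod.snd ⁻¹' A} :=
    an_proj (an_inter hC (hA.preimage continuous_snd))
  obtain ⟨B, hB, hAB, hBC⟩ := sep1 hA h1 (by rintro x hx ⟨y, hy, hyA⟩; exact h x hx y hyA hy)
  have h2 : AnalyticSet {y | ∃ x, (y, x) ∈ (fun p : α × α => (p.2, p.1)) ⁻¹' C ∩
      Prod.snd ⁻¹' B} :=
    an_proj (an_inter (hC.preimage (continuous_snd.prodMk continuous_fst))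
      (hB.analyticSet.preimage continuous_snd))
  obtain ⟨B', hB', hAB', hBC'⟩ := sep1 hA h2
    (by rintro y hy ⟨x, hx, hxB⟩; exact hBC x hxB ⟨y, hx, hy⟩)
  refine ⟨B ∩ B', hB.inter hB', Set.subset_inter hAB hAB', fun x hx y hy hC => ?_⟩
  exact hBC' y hy.2 ⟨x, hC, hx.1⟩

theorem sep3 {α : Type*} [TopologicalSpace α] [PolishSpace α] [MeasurableSpace α] [BorelSpace α]
    {A : Set α} (hA : AnalyticSet A) {C : Set (α × α × α)} (hC : AnalyticSet C)
    (h : ∀ x ∈ A, ∀ y ∈ A, ∀ z ∈ A, (x, y, z) ∉ C) :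
    ∃ B, MeasurableSet B ∧ A ⊆ B ∧ ∀ x ∈ B, ∀ y ∈ B, ∀ z ∈ B, (x, y, z) ∉ C := by
  -- the last two coordinates
  have h0 : AnalyticSet {p : α × α | ∃ z, (p, z) ∈ (fun q : (α × α) × α =>
      (q.2, q.1.1, q.1.2)) ⁻¹' C ∩ Prod.snd ⁻¹' A} :=
    an_proj (an_inter (hC.preimage (by fun_prop)) (hA.preimage continuous_snd))
  obtain ⟨B, hB, hAB, hBC⟩ := sep2 hA h0
    (by rintro x hx y hy ⟨z, hz, hzA⟩; exact h z hzA x hx y hy hz)
  have h1 : AnalyticSet {z : α | ∃ p : α × α, (z, p) ∈ C ∩ ((fun q : α × α × α => q.2.1) ⁻¹' B ∩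
      (fun q : α × α × α => q.2.2) ⁻¹' B)} :=
    an_proj (an_inter hC (an_inter (hB.analyticSet.preimage (by fun_prop))
      (hB.analyticSet.preimage (by fun_prop))))
  obtain ⟨B', hB', hAB', hBC'⟩ := sep1 hA h1
    (by rintro z hz ⟨p, hp, hp1, hp2⟩; exact hBC p.1 hp1 p.2 hp2 ⟨z, hp, hz⟩)
  refine ⟨B ∩ B', hB.inter hB', Set.subset_inter hAB hAB', fun x hx y hy z hz hC => ?_⟩
  exact hBC' x hx.2 ⟨(y, z), hC, hy.1, hz.1⟩

/-! ### Novikov's theorem -/

/-- Separation of a sequence of sets. -/
def Sepa {α : Type*} [MeasurableSpace α] (S : ℕ → Set α) : Prop :=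
  ∃ B : ℕ → Set α, (∀ n, MeasurableSet (B n)) ∧ (∀ n, S n ⊆ B n) ∧ ⋂ n, B n = ∅

theorem Sepa.split {α : Type*} [MeasurableSpace α] {S : ℕ → Set α} (i : ℕ) (T : ℕ → Set α)
    (hi : S i ⊆ ⋃ j, T j) (h : ∀ j, Sepa (fun n => if n = i then T j else S n)) : Sepa S := by
  choose B hB hS hI using h
  refine ⟨fun n => if n = i then ⋃ j, B j i else ⋂ j, B j n, fun n => ?_, fun n => ?_, ?_⟩
  · dsimp only
    split_ifs with hn
    · exact MeasurableSet.iUnion fun j => hB j i
    · exact MeasurableSet.iInter fun j => hB j n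
  · dsimp only
    split_ifs with hn
    · subst hn
      refine hi.trans (Set.iUnion_mono fun j => ?_)
      have := hS j n
      simpa using this
    · refine Set.subset_iInter fun j => ?_
      have := hS j n
      simpa [hn] using this
  · rw [Set.eq_empty_iff_forall_notMem]
    intro x hx
    rw [Set.mem_iInter] at hx
    have h1 := hx i
    simp only [if_true] at h1
    obtain ⟨j, hj⟩ := Set.mem_iUnion.1 h1
    have : x ∈ ⋂ n, B j n := by
      rw [Set.mem_iInter]
      intro n
      by_cases hn : n = i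
      · subst hn
        exact hj
      · have h2 := hx n
        simp only [if_neg hn] at h2
        exact Set.mem_iInter.1 h2 j
    rw [hI j] at this
    exact this

theorem Sepa.mono {α : Type*} [MeasurableSpace α] {S T : ℕ → Set α} (h : Sepa T)
    (hST : ∀ n, S n ⊆ T n) : Sepa S := by
  obtain ⟨B, h1, h2, h3⟩ := h
  exact ⟨B, h1, fun n => (hST n).trans (h2 n), h3⟩

theorem novikov {α : Type*} [TopologicalSpace α] [T2Space α] [MeasurableSpace α]
    [OpensMeasurableSpace α] (A : ℕ → Set α) (hA : ∀ n, AnalyticSet (A n))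
    (h : ⋂ n, A n = ∅) : Sepa A := by
  by_cases he : ∃ n, A n = ∅
  · obtain ⟨n, hn⟩ := he
    refine ⟨fun m => if m = n then ∅ else Set.univ, fun m => ?_, fun m => ?_, ?_⟩
    · dsimp only
      split_ifs <;> simp
    · dsimp only
      split_ifs with hm
      · rw [hm, hn]
      · exact Set.subset_univ _
    · rw [Set.eq_empty_iff_forall_notMem]
      intro x hx
      have := Set.mem_iInter.1 hx n
      simp at this
  have hf : ∀ n, ∃ f : (ℕ → ℕ) → α, Continuous f ∧ Set.range f = A n := by
    intro n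
    have := hA n
    rw [AnalyticSet] at this
    rcases this with h0 | h1
    · exact absurd ⟨n, h0⟩ he
    · exact h1
  choose f hfc hfr using hf
  -- sets given by the digits known at stage `k`
  let S : (ℕ → ℕ) → ℕ → ℕ → Set α := fun y k n =>
    f n '' {b | ∀ l, Nat.pair n l < k → b l = y (Nat.pair n l)}
  have hS0 : ∀ y n, S y 0 n = A n := by
    intro y n
    simp only [S, Nat.not_lt_zero, false_imp_iff, implies_true, Set.ofPred_true,
      Set.image_univ, hfr]
  by_contra hcon
  -- one step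
  have step : ∀ k y, ¬ Sepa (S y k) → ∃ d : ℕ, ¬ Sepa (S (Function.update y k d) (k + 1)) := by
    intro k y hy
    by_contra hd
    push Not at hd
    apply hy
    refine Sepa.split (Nat.unpair k).1
      (fun d => S (Function.update y k d) (k + 1) (Nat.unpair k).1) ?_ ?_
    · rintro _ ⟨b, hb, rfl⟩
      rw [Set.mem_iUnion]
      refine ⟨b (Nat.unpair k).2, b, fun l hl => ?_, rfl⟩
      by_cases hk : Nat.pair (Nat.unpair k).1 l = k
      · rw [hk, Function.update_self]
        have : Nat.unpair k = ((Nat.unpair k).1, l) := by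
          rw [← Nat.unpair_pair (Nat.unpair k).1 l, hk]
        rw [this]
      · rw [Function.update_of_ne hk]
        exact hb l (by omega)
    · intro d
      refine (hd d).mono fun n => ?_
      by_cases hn : n = (Nat.unpair k).1
      · simp only [if_pos hn]
        rw [hn]
      · simp only [if_neg hn]
        rintro _ ⟨b, hb, rfl⟩
        refine ⟨b, fun l hl => ?_, rfl⟩
        have hk : Nat.pair n l ≠ k := by
          intro e
          apply hn
          rw [← e, Nat.unpair_pair]
        rw [Function.update_of_ne hk]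
        exact hb l (by omega)
  -- the sequence of digits
  choose! d hd using step
  let Y : ℕ → ℕ → ℕ := fun k => Nat.rec (fun _ => 0)
    (fun k y => Function.update y k (d k y)) k
  have hY : ∀ k, ¬ Sepa (S (Y k) k) := by
    intro k
    induction k with
    | zero =>
      intro h0
      exact hcon (h0.mono fun n => (hS0 _ n).symm.subset)
    | succ k ih => exact hd k _ ih
  have hYs : ∀ k, Y (k + 1) = Function.update (Y k) k (d k (Y k)) := fun k => rfl
  have hst : ∀ c k, c < k → Y k c = Y (c + 1) c := by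
    intro c k hck
    induction k with
    | zero => omega
    | succ k ih =>
      rcases Nat.lt_succ_iff_lt_or_eq.1 hck with h1 | h1
      · rw [hYs, Function.update_of_ne (by omega), ih h1]
      · rw [h1]
  let y : ℕ → ℕ := fun c => Y (c + 1) c
  have hy : ∀ k, ¬ Sepa (S y k) := by
    intro k hk
    refine hY k (hk.mono fun n => ?_)
    rintro _ ⟨b, hb, rfl⟩
    refine ⟨b, fun l hl => ?_, rfl⟩
    rw [hb l hl]
    exact hst _ _ hl
  let b : ℕ → ℕ → ℕ := fun n l => y (Nat.pair n l)
  -- shrinking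
  have hsh : ∀ n (U : Set α), IsOpen U → f n (b n) ∈ U → ∃ k, ∀ k' ≥ k, S y k' n ⊆ U := by
    intro n U hU hb
    have h1 : (f n) ⁻¹' U ∈ 𝓝 (b n) := (hfc n).continuousAt.preimage_mem_nhds (hU.mem_nhds hb)
    rw [nhds_pi, Filter.mem_pi] at h1
    obtain ⟨I, hI, t, ht, hsub⟩ := h1
    obtain ⟨k, hk⟩ : ∃ k, ∀ l ∈ I, Nat.pair n l < k := by
      obtain ⟨k, hk⟩ := (hI.image (Nat.pair n)).bddAbove
      exact ⟨k + 1, fun l hl => Nat.lt_succ_of_le (hk ⟨l, hl, rfl⟩)⟩
    refine ⟨k, fun k' hk' => ?_⟩
    rintro _ ⟨c, hc, rfl⟩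
    apply hsub
    intro l hl
    rw [hc l (by have := hk l hl; omega)]
    exact mem_of_mem_nhds (ht l)
  have heq : ∀ n, f n (b n) = f 0 (b 0) := by
    intro n
    by_contra hne
    obtain ⟨U, V, hU, hV, hUx, hVy, hUV⟩ := t2_separation hne
    obtain ⟨k1, hk1⟩ := hsh n U hU hUx
    obtain ⟨k2, hk2⟩ := hsh 0 V hV hVy
    have hn0 : n ≠ 0 := by
      rintro rfl
      exact hne rfl
    apply hy (max k1 k2)
    refine ⟨fun m => if m = n then U else if m = 0 then V else Set.univ, fun m => ?_,
      fun m => ?_, ?_⟩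
    · dsimp only
      split_ifs
      · exact hU.measurableSet
      · exact hV.measurableSet
      · exact MeasurableSet.univ
    · dsimp only
      split_ifs with h1 h2
      · rw [h1]
        exact hk1 _ (le_max_left _ _)
      · rw [h2]
        exact hk2 _ (le_max_right _ _)
      · exact Set.subset_univ _
    · rw [Set.eq_empty_iff_forall_notMem]
      intro x hx
      rw [Set.mem_iInter] at hx
      have h1 := hx n
      have h2 := hx 0
      simp only [if_true, if_neg hn0.symm] at h1 h2
      exact Set.disjoint_left.1 hUV h1 h2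
  have : f 0 (b 0) ∈ ⋂ n, A n := by
    rw [Set.mem_iInter]
    intro n
    rw [← hfr n, ← heq n]
    exact Set.mem_range_self _
  rw [h] at this
  exact this

end Pool.Agent.Pf8fe2f
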